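import Pool.Agent.W994.DE.Asym2

/-!
# P versus polylogarithmic nondeterministic space for short computations

The evaluation problem for a directed acyclic graph: every node `i` has a table
`[k]^(deg i) → [k]`, the value of a node is the entry of its table at the values of its children,
and a property of the value of a node `r` is to be decided. This is in `P`; a machine with random
access to the tables evaluates the graph with one query for each node.

We consider arbitrary nondeterministic branching programs (the logarithm of the size is the space)
which decide this problem: no restriction on the variables which are queried, acceptance is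
nondeterministic in the usual (semantic) sense. The only assumption is that every input which is
accepted has one short accepting computation: at most `T` steps. If `k` is a bit larger than
`T ^ 2` times a polynomial in the number of nodes, then the logarithm of the size is at least of the
order of `p * log k / log T`, if `r` cannot be pebbled with `p` pebbles. So for pyramids
nondeterministic space `N ^ ε` is not enough for computations with at most `N ^ θ` steps, `θ < 1/4`,
although `N ^ δ` deterministic steps suffice, for `δ` as small as we please.

Proof idea. Choose for each assignment `v` of values to the nodes a short accepting computation on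
the input with these values all of whose irrelevant entries are `δ`. For an interval of time let
`E` be the set of nodes whose relevant entries are not read in it; its boundary consists of the
elements of `E` with a parent outside of `E`. If the boundaries are small for all dyadic intervals,
then one gets a pebbling with few pebbles. If the boundary is large for many `v`, then there are many
`v` and `w` with the same states at the ends of the interval which differ only at the boundary, and
the part of the computation for `w` can be used for `v`; then `E` becomes larger. The new part reads
entries which are irrelevant for `v` and not `δ`, but they belong to private values of `w`, taken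
from a random set, and a lemma of isolation type gives that no other part of the computation meets
private values of this part. So the parts can be glued, and by induction over the dyadic intervals
one gets for most `v` an accepting computation with small boundaries.
-/

set_option autoImplicit false

namespace Pool.Agent.Results.MP_807b32_lc.NondetTimeSpaceDag

open Pool.Agent.W994.DE Pool.Agent.W994.DE.Dag
open Pool.Agent.H554R2.Thrifty (BP)

/-- (1) Let `P` be a nondeterministic program with at most `2 ^ s` states which decides a nontrivial
property `S` of the value of the node `r` of a graph with fan-in at most `d` and `n` nodes over the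
alphabet `[k]`, such that every input which is accepted has an accepting computation with at most
`T = 2 ^ τ` steps. If `(4 T ^ 2 d n (n + 1)) ^ (m + 1) ≤ k ^ m` and `8 T ^ 2 d (n + 1) < k`, then
`r` can be pebbled with `2 (m + 1) (3 + 2 s / log k) τ + 1` pebbles.

(2) The pyramid of height `h` needs `h + 1` pebbles (Cook 1974).

(3) Let `0 ≤ θ < 1/4` and `δ > 0`. There are `C` and `ε > 0` such that for all large `h`, with
`k = (h + 1) ^ C` and `N` the number of variables of the evaluation problem for the pyramid of height
`h`, and for each nontrivial property of the value of the top: a nondeterministic program for which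
every input which is accepted has an accepting computation with at most `N ^ θ` steps has more than
`2 ^ (N ^ ε)` states, while a deterministic program needs at most `N ^ δ` steps. -/
theorem result :
    (∀ (G : Dag) (r : G.V) (k d m τ s : ℕ) (S : Fin k → Bool), (∃ a, S a = true) →
      (∃ b, S b = false) → (∀ i, G.deg i ≤ d) → 1 ≤ d →
      (4 * 4 ^ τ * d * Fintype.card G.V * (Fintype.card G.V + 1)) ^ (m + 1) ≤ k ^ m →
      8 * 4 ^ τ * d * (Fintype.card G.V + 1) < k →
      ∀ P : BP (G.Var k) k, Decides P r S →
        (∀ x, S (value x r) = true → ∃ l, P.IsComp x l true ∧ l.length ≤ 2 ^ τ) →
        P.size ≤ 2 ^ s →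
        G.Pebblable (2 * (m + 1) * (3 + 2 * s / Nat.log 2 k) * τ + 1) r) ∧
    (∀ h s : ℕ, (pyramid h).Pebblable s (pyrTop h) → h + 1 ≤ s) ∧
    (∀ θ δ : ℝ, 0 ≤ θ → θ < 1 / 4 → 0 < δ → ∃ (C : ℕ) (ε : ℝ) (h₀ : ℕ), 0 < ε ∧
      ∀ h : ℕ, h₀ ≤ h → ∀ k : ℕ, k = (h + 1) ^ C →
      ∀ N : ℕ, N = Fintype.card ((pyramid h).Var k) →
      ∀ (S : Fin k → Bool), (∃ a, S a = true) → (∃ b, S b = false) →
      (∀ P : BP ((pyramid h).Var k) k, Decides P (pyrTop h) S →
        (∀ x, S (value x (pyrTop h)) = true →
          ∃ l, P.IsComp x l true ∧ (l.length : ℝ) ≤ (N : ℝ) ^ θ) →
        (N : ℝ) ^ ε < Real.logb 2 P.size) ∧
      ∃ P : BP ((pyramid h).Var k) k, P.Deterministic ∧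
        P.Solves (fun x => S (value x (pyrTop h))) ∧
        ∀ x l R, P.IsComp x l R → (l.length : ℝ) ≤ (N : ℝ) ^ δ) :=
  ⟨fun _ _ _ _ _ _ _ _ ⟨_, ha⟩ ⟨_, hb⟩ hd hd1 hk hk' _ hP hT hs =>
      main_tl hP ha hb hd hd1 hT hs hk hk',
    fun _ _ h => pyramid_pebbles h,
    fun θ δ h1 h2 h3 => pyramid_asym_tl θ δ h1 h2 h3⟩

end Pool.Agent.Results.MP_807b32_lc.NondetTimeSpaceDag
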