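import Pool.Agent.W997.SR.PebStmt

/-!
# Programs which read few variables are pebblings

For a directed acyclic graph `G` with `n` nodes we consider the evaluation problem in which every
node has a table with `k` letters and the value of a node is the entry of its table which belongs
to the sum of the values of its children.  There are `n k` variables.  We show that for graphs of
bounded degree the space and the time of the deterministic branching programs which evaluate `G`
and read few different variables are those of the black pebble game on `G`: `p` pebbles correspond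
to log size `Θ(p log k)`, and placements of pebbles correspond to steps.

* A pebbling with `p` pebbles and `t` placements gives a program with `t k ^ p` states and `t` steps
  which reads at most `n` different variables.
* Conversely, programs with at most `s ^ m` states which are right on a fraction of `1 / 2 + γ` of
  the inputs, with `γ ≥ 2 / s` and `s ^ 2 ≥ n`, read on average at least
  `γ k / (2 s ^ 4)` different variables, or make on average at least `γ τ / 2` steps, if there is
  no pebbling with `m d ^ 2` pebbles and fewer than `τ` placements.

Proof idea.  Call a node live if the rest of the computation evaluates one of its parents before it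
evaluates the node.  The set of live nodes moves like a configuration of the black pebble game.  By
the counting lemma, the fibre bound and the union bound, for most inputs there are never `m` live
nodes such that no two of them have a common parent, and no live nodes in the beginning.
-/

set_option autoImplicit false

namespace Pool.Agent.Results.MP_807b32_lc.PebblingLaw

open Pool.Agent.W997.SR Pool.Agent.W997.SR.Dag
open Pool.Agent.W997.TS (DBP bit)
open Pool.Agent.W997.DB (HardReads HardReadsOrTime)

/-- Let `G` be a graph with `n` nodes, and `v₀` one of them.

(1) If `v₀` can be pebbled with `p` pebbles and `t` placements, then the lowest bit of the value of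
`v₀` is computed by a deterministic branching program with at most `t * k ^ p` states which stops
after exactly `t` steps and reads at most `n` different variables. This is possible with `p = n` and
some `t ≤ n`.

(2) Let every node have at most `d` children and at most `d` parents, let `v₀` have no parents, let
`k` be even, `m ≥ 1`, and suppose that `v₀` cannot be pebbled with `m * d ^ 2` pebbles and fewer
than `τ` placements. Let `s ≥ 1`, `n ≤ s ^ 2` and `2 ≤ γ * s`. Then every deterministic branching
program with at most `s ^ m` states which halts on all inputs, with the right answer on a fraction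
of at least `1 / 2 + γ` of them, reads on average at least `γ / 2 * (k / s ^ 4)` different variables
or makes on average at least `γ / 2 * τ` steps. If `v₀` cannot be pebbled with `m * d ^ 2` pebbles
at all, then the program reads on average at least `γ / 2 * (k / s ^ 4)` different variables.

(3) The pyramid of height `h` has degree at most `2` and needs `h + 1` pebbles. So for `4 * m ≤ h`
and `h + 1 ≤ s` every deterministic branching program with at most `s ^ m` states as in (2) for the
top of the pyramid reads on average at least `γ / 2 * (k / s ^ 4)` different variables. -/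
theorem result :
    (∀ (G : Dag) (v₀ : G.Γ),
      (∀ (k : ℕ) [NeZero k] (p t : ℕ), G.Pebbles v₀ p t →
        ∃ P : DBP (G.Var k) k, P.size ≤ t * k ^ p ∧
          ∀ x, ∃ m ≤ Fintype.card G.Γ, P.Run x t m (bit (value x v₀))) ∧
      ∃ t ≤ Fintype.card G.Γ, G.Pebbles v₀ (Fintype.card G.Γ) t) ∧
    (∀ (G : Dag) (v₀ : G.Γ) (d k : ℕ) [NeZero k], 1 ≤ d → G.DegLe d → (∀ v, v₀ ∉ G.kid v) →
      Even k → ∀ m : ℕ, 1 ≤ m → ∀ s γ : ℝ, 1 ≤ s → (Fintype.card G.Γ : ℝ) ≤ s ^ 2 → 2 ≤ γ * s →
      (∀ τ : ℕ, (∀ t < τ, ¬ G.Pebbles v₀ (m * d ^ 2) t) →
        HardReadsOrTime (fun x : G.Var k → Fin k => bit (value x v₀)) (m * Real.log s) γ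
          (γ / 2 * (k / s ^ 4)) (γ / 2 * τ)) ∧
      ((∀ t, ¬ G.Pebbles v₀ (m * d ^ 2) t) →
        HardReads (fun x : G.Var k → Fin k => bit (value x v₀)) (m * Real.log s) γ
          (γ / 2 * (k / s ^ 4)))) ∧
    ∀ h : ℕ, (pyramid h).DegLe 2 ∧ (∀ p t, (pyramid h).Pebbles (top h) p t → h + 1 ≤ p) ∧
      ∀ (k : ℕ) [NeZero k], Even k → ∀ m : ℕ, 1 ≤ m → 4 * m ≤ h → ∀ s γ : ℝ, (h : ℝ) + 1 ≤ s →
      2 ≤ γ * s →
      HardReads (fun x : (pyramid h).Var k → Fin k => bit (value x (top h))) (m * Real.log s) γ
        (γ / 2 * (k / s ^ 4)) :=
  ⟨fun _ v₀ => ⟨fun _ _ p t hw => program v₀ p t hw, pebbles_card v₀⟩,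
    fun _ v₀ d k _ hd1 hd htop hk m hm s γ hs1 hs hγ =>
      ⟨fun τ hτ => law v₀ d k hd1 hd htop hk m τ hm hτ s γ hs1 hs hγ,
        fun hno => law' v₀ d k hd1 hd htop hk m hm hno s γ hs1 hs hγ⟩,
    fun h => ⟨pyramid_deg h,
      fun p t hw => pyramid_pebbles h p t ∅ Pool.Agent.W994.DE.Pyr.open_empty hw,
      fun k _ hk m hm hmh s γ hs hγ => pyramid_law h k hk m hm hmh s γ hs hγ⟩⟩

end Pool.Agent.Results.MP_807b32_lc.PebblingLaw
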