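import Pool.Agent.W953.NB.QHard
import Pool.Agent.W953.NB.DirCompl

/-!
# P, NP and polylogarithmic space: few tests on polylogarithmically many slices

Directed switching networks whose edges are labelled by literals have size `2 ^ polylog` exactly for
the nonuniform version of polylogarithmic space. For monotone functions it is asked how much can be
done by decision trees of depth `t` whose tests and leaves are monotone networks of quasi-polynomial
size (`t` NOT gates) on few consecutive slices (a slice consists of the inputs with a given number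
of ones).

(A), (B): P/poly (NP/poly) has networks of quasi-polynomial size if and only if for every `a` there
is `c` such that trees of depth `t` and size `2 ^ (log S) ^ c` are enough for the monotone functions
on `2 ^ t (log S) ^ a` slices, for all `t`; if and only if for every `a` there is `c` such that
trees of depth `log n - a log log n` are enough on all inputs.

(C): without any assumption, for every `c` there is `a`, namely `a = 2 c + 1`, such that they are
not enough, already for functions with monotone circuits of size `3 n`.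

So the question is whether the quantifiers (for every `c` there is `a`) such that they fail, which
is proved, can be exchanged.
-/

set_option autoImplicit false

namespace Pool.Agent.Results.MP_807b32_lc.PolylogSlices

open Pool.Agent.H540R2 Pool.Agent.W953.SP Pool.Agent.W953.NB

variable {n m : ℕ}

/-- the number of ones of an input -/
def ones (x : Fin n → Bool) : ℕ := (Finset.univ.filter (fun i => x i = true)).card

/-- the variables and their negations -/
def literals (x : Fin n → Bool) : Fin (n + n) → Bool := Fin.append x (fun i => !(x i))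

/-- `f` has a circuit with at most `s` gates -/
def Circ (n : ℕ) (f : (Fin n → Bool) → Bool) (s : ℕ) : Prop :=
  ∃ C : Circuit n, C.size ≤ s ∧ ∀ x, C.eval x = f x

/-- `f` has a circuit with at most `s` gates, none of them a NOT gate -/
def MonCirc (n : ℕ) (f : (Fin n → Bool) → Bool) (s : ℕ) : Prop :=
  ∃ C : Circuit n, C.Monotone ∧ C.size ≤ s ∧ ∀ x, C.eval x = f x

/-- `f` has a nondeterministic circuit with at most `s` gates, which reads the input `x` and any
number of guessed bits `y` and their negations -/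
def NCirc (n : ℕ) (f : (Fin n → Bool) → Bool) (s : ℕ) : Prop :=
  ∃ (m : ℕ) (C : Circuit (n + (m + m))), C.size ≤ s ∧
    ∀ x, f x = true ↔ ∃ y : Fin m → Bool, C.eval (Fin.append x (literals y)) = true

/-- the same without NOT gates -/
def NMonCirc (n : ℕ) (f : (Fin n → Bool) → Bool) (s : ℕ) : Prop :=
  ∃ (m : ℕ) (C : Circuit (n + (m + m))), C.Monotone ∧ C.size ≤ s ∧
    ∀ x, f x = true ↔ ∃ y : Fin m → Bool, C.eval (Fin.append x (literals y)) = true

/-- `2 ^ (log S + 1) ^ c` -/
def quasi (c S : ℕ) : ℕ := 2 ^ (Nat.log 2 S + 1) ^ c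

/-- the functions of `n ≤ S` variables with complexity `S` in the sense of `B` have directed
networks over the literals of size `2 ^ (log S) ^ O(1)` -/
def Networks (B : ∀ n : ℕ, ((Fin n → Bool) → Bool) → ℕ → Prop) : Prop :=
  ∃ c : ℕ, ∀ (S n : ℕ) (f : (Fin n → Bool) → Bool), 2 ≤ S → n ≤ S → B n f S →
    ∃ N : Net (Fin (n + n)), N.size ≤ quasi c S ∧ ∀ x, N.DAcc (literals x) ↔ f x = true

/-- for some `c`, every monotone function `f` of `n ≤ S` variables with complexity `S` in the sense
of `B` agrees, for all `k` and `t`, on the `2 ^ t (log S + 1) ^ a` slices from `k` on with a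
decision tree of depth at most `t` and size `2 ^ (log S + 1) ^ c` whose tests are monotone directed
networks -/
def TestsAndSlices (B : ∀ n : ℕ, ((Fin n → Bool) → Bool) → ℕ → Prop) (a : ℕ) : Prop :=
  ∃ c : ℕ, ∀ (S n : ℕ) (f : (Fin n → Bool) → Bool), 2 ≤ S → n ≤ S → B n f S →
    (∀ x y : Fin n → Bool, (∀ i, x i ≤ y i) → f x ≤ f y) →
    ∀ k t : ℕ, ∃ p : DTree (Net (Fin n)), p.depth ≤ t ∧ p.size (dnetTests _) ≤ quasi c S ∧
      ∀ x, k ≤ ones x → ones x < k + 2 ^ t * (Nat.log 2 S + 1) ^ a →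
        (p.Acc (dnetTests _) x ↔ f x = true)

/-- the same with depth `log n - a log log n` on all inputs -/
def FewTests (B : ∀ n : ℕ, ((Fin n → Bool) → Bool) → ℕ → Prop) (a : ℕ) : Prop :=
  ∃ c : ℕ, ∀ (S n : ℕ) (f : (Fin n → Bool) → Bool), 2 ≤ S → n ≤ S → B n f S →
    (∀ x y : Fin n → Bool, (∀ i, x i ≤ y i) → f x ≤ f y) →
    ∃ p : DTree (Net (Fin n)), p.depth ≤ Nat.log 2 n - a * Nat.log 2 (Nat.log 2 n) ∧
      p.size (dnetTests _) ≤ quasi c S ∧ ∀ x, p.Acc (dnetTests _) x ↔ f x = true

/-- for some `c`, every function `f` of `n ≤ S` variables with complexity `S` in the sense of `B`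
agrees, for all `k`, on the `w n + 1` slices from `k` on with such a tree of depth at most `t n` -/
def SomeTestsSomeSlices (B : ∀ n : ℕ, ((Fin n → Bool) → Bool) → ℕ → Prop) (t w : ℕ → ℕ) : Prop :=
  ∃ c : ℕ, ∀ (S n : ℕ) (f : (Fin n → Bool) → Bool), 2 ≤ S → n ≤ S → B n f S →
    ∀ k : ℕ, ∃ p : DTree (Net (Fin n)), p.depth ≤ t n ∧ p.size (dnetTests _) ≤ quasi c S ∧
      ∀ x, k ≤ ones x → ones x ≤ k + w n → (p.Acc (dnetTests _) x ↔ f x = true)

/-- the four equivalent statements for the measures `B` and `M` (`B` without negations) -/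
def Equivalent (B M : ∀ n : ℕ, ((Fin n → Bool) → Bool) → ℕ → Prop) : Prop :=
  List.TFAE [Networks B, ∀ a : ℕ, TestsAndSlices B a, ∀ a : ℕ, FewTests B a,
    ∃ t w : ℕ → ℕ, SomeTestsSomeSlices M t w]

open Classical in
lemma transfer (𝓑 : Big) (B M : ∀ n : ℕ, ((Fin n → Bool) → Bool) → ℕ → Prop)
    (hB : ∀ n f s, B n f s ↔ 𝓑.G f s) (hM : ∀ n f s, M n f s ↔ 𝓑.M f s) : Equivalent B M := by
  have hT := qtfae (𝓐 := dir) (𝓑 := 𝓑) (by norm_num) dir_compl
  have hT1 : QPoly dir 𝓑 → ∀ a, QWindows dir 𝓑 a := (hT.out 0 1).mp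
  have hT2 : QPoly dir 𝓑 → ∀ a, QFew dir 𝓑 a := (hT.out 0 2).mp
  have hT3 : (∃ t w : ℕ → ℕ, QSome dir 𝓑 t w) → QPoly dir 𝓑 := (hT.out 0 3).mpr
  have hA : ∀ (n : ℕ) (f : (Fin n → Bool) → Bool) (s : ℕ),
      (∃ N : Net (Fin (n + n)), N.size ≤ s ∧ ∀ x, N.DAcc (literals x) ↔ f x = true) ↔
        dir.L f s := by
    intro n f s
    constructor
    · rintro ⟨N, hN, hNf⟩
      refine ⟨fun y => decide (N.DAcc y), ⟨N, hN, fun y => decide_eq_true_iff.symm⟩, fun x => ?_⟩
      rw [Bool.eq_iff_iff, decide_eq_true_iff]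
      exact hNf x
    · rintro ⟨Q, ⟨N, hN, hNQ⟩, hQ⟩
      exact ⟨N, hN, fun x => by rw [hNQ]; exact Iff.of_eq (congrArg (· = true) (hQ x))⟩
  have hto : ∀ {n t s : ℕ} {f : (Fin n → Bool) → Bool}, dir.TA t f s →
      ∃ p : DTree (Net (Fin n)), p.depth ≤ t ∧ p.size (dnetTests _) ≤ s ∧
        ∀ x, p.Acc (dnetTests _) x ↔ f x = true :=
    fun {n _ _ _} h => tree_of_TA (𝒯 := dnetTests (Fin n)) (fun _ _ h => h) h
  have h1 : QPoly dir 𝓑 → Networks B := by
    rintro ⟨c, hc⟩
    exact ⟨c, fun S n f hS hn hf => (hA n f _).mpr (hc S n f hS hn ((hB n f S).mp hf))⟩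
  have h1' : Networks B → QPoly dir 𝓑 := by
    rintro ⟨c, hc⟩
    exact ⟨c, fun S n f hS hn hf => (hA n f _).mp (hc S n f hS hn ((hB n f S).mpr hf))⟩
  have h2 : ∀ a, QWindows dir 𝓑 a → TestsAndSlices B a := by
    rintro a ⟨c, hc⟩
    refine ⟨c, fun S n f hS hn hf hmon k t => ?_⟩
    obtain ⟨g, hg, hgx⟩ := hc S n f hS hn ((hB n f S).mp hf) hmon k t
    obtain ⟨p, p1, p2, p3⟩ := hto hg
    exact ⟨p, p1, p2, fun x hx1 hx2 => by rw [p3, hgx x hx1 hx2]⟩
  have h3 : ∀ a, QFew dir 𝓑 a → FewTests B a := by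
    rintro a ⟨c, hc⟩
    exact ⟨c, fun S n f hS hn hf hmon => hto (hc S n f hS hn ((hB n f S).mp hf) hmon)⟩
  have h4 : ∀ t w, SomeTestsSomeSlices M t w → QSome dir 𝓑 t w := by
    rintro t w ⟨c, hc⟩
    refine ⟨c, fun S n f hS hn hf k => ?_⟩
    obtain ⟨p, p1, p2, p3⟩ := hc S n f hS hn ((hM n f S).mpr hf) k
    refine ⟨_, TA_of_tree (𝓜 := dir) (𝒯 := dnetTests (Fin n)) (fun P => ⟨P, le_rfl, fun x => by
      rw [decide_eq_true_iff]; rfl⟩) p _ _ p1 p2, fun x hx1 hx2 => ?_⟩
    rw [Bool.eq_iff_iff, decide_eq_true_iff]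
    exact p3 x hx1 hx2
  have h24 : (∀ a : ℕ, TestsAndSlices B a) → ∃ t w : ℕ → ℕ, SomeTestsSomeSlices M t w := by
    intro h
    obtain ⟨c, hc⟩ := h 0
    refine ⟨fun _ => 0, fun _ => 0, c, fun S n f hS hn hf k => ?_⟩
    have hf' := (hM n f S).mp hf
    obtain ⟨p, p1, p2, p3⟩ := hc S n f hS hn ((hB n f S).mpr (𝓑.toG hf')) (𝓑.incr hf') k 0
    exact ⟨p, p1, p2, fun x hx1 hx2 => p3 x hx1 (by simpa using Nat.lt_succ_of_le hx2)⟩
  have h34 : (∀ a : ℕ, FewTests B a) → ∃ t w : ℕ → ℕ, SomeTestsSomeSlices M t w := by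
    intro h
    obtain ⟨c, hc⟩ := h 0
    refine ⟨fun n => Nat.log 2 n - 0 * Nat.log 2 (Nat.log 2 n), fun n => n, c,
      fun S n f hS hn hf k => ?_⟩
    have hf' := (hM n f S).mp hf
    obtain ⟨p, p1, p2, p3⟩ := hc S n f hS hn ((hB n f S).mpr (𝓑.toG hf')) (𝓑.incr hf')
    exact ⟨p, p1, p2, fun x _ _ => p3 x⟩
  unfold Equivalent
  tfae_have 1 → 2 := fun h a => h2 a (hT1 (h1' h) a)
  tfae_have 1 → 3 := fun h a => h3 a (hT2 (h1' h) a)
  tfae_have 2 → 4 := h24
  tfae_have 3 → 4 := h34
  tfae_have 4 → 1 := fun ⟨t, w, h⟩ => h1 (hT3 ⟨t, w, h4 t w h⟩)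
  tfae_finish

/-- (A) The following are equivalent: P/poly has directed networks of quasi-polynomial size; for
every `a` there is `c` such that monotone functions in P/poly agree with decision trees of depth `t`
and size `2 ^ (log S + 1) ^ c` with monotone directed networks as tests on `2 ^ t (log S + 1) ^ a`
slices; for every `a` there is `c` such that they have such trees of depth `log n - a log log n`;
for some functions `t` and `w` there is `c` such that functions with small circuits without NOT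
gates agree with such trees of depth `t n` on `w n + 1` slices.
(B) The same for NP/poly.
(C) For every `c` and all large `n` and all `t` with `2 ^ t (log n + 1) ^ (2 c + 1) ≤ n` there is a
circuit with `n` variables and at most `3 n` gates, none of them a NOT gate, that agrees on no
`2 ^ t (log n + 1) ^ (2 c + 1) + 1` consecutive slices with a computation in rounds of cost at most
`2 ^ t` whose tests are monotone directed networks of total size at most
`2 ^ (log (3 n) + 1) ^ c` on every path. -/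
theorem result :
    Equivalent Circ MonCirc ∧ Equivalent NCirc NMonCirc ∧
    ∀ c : ℕ, ∃ n₀, ∀ n ≥ n₀, ∀ t : ℕ, 2 ^ t * (Nat.log 2 n + 1) ^ (2 * c + 1) ≤ n →
      ∃ C : Circuit n, C.Monotone ∧ C.size ≤ 3 * n ∧
        ∀ k, k + 2 ^ t * (Nat.log 2 n + 1) ^ (2 * c + 1) ≤ n →
          ∀ p : Prog (Net (Fin n)), p.cost ≤ 2 ^ t → p.load (dnetTests _) ≤ quasi c (3 * n) →
            ∃ x, k ≤ ones x ∧ ones x ≤ k + 2 ^ t * (Nat.log 2 n + 1) ^ (2 * c + 1) ∧
              ¬ (p.Acc (dnetTests _) x ↔ C.eval x = true) := by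
  refine ⟨transfer circB _ _ (fun _ _ _ => Iff.rfl) (fun _ _ _ => Iff.rfl),
    transfer ndB _ _ (fun _ _ _ => Iff.rfl) (fun _ _ _ => Iff.rfl), fun c => ?_⟩
  exact qhard c

end Pool.Agent.Results.MP_807b32_lc.PolylogSlices
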